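import Pool.Agent.Helper85.QT.St1

set_option autoImplicit false

open MeasureTheory Matrix Set Topology
open scoped ENNReal ComplexConjugate

namespace Pool.Agent.Helper5.QT

open Pool.Agent.Helper85.QT Pool.Agent.Helper86.QA

private theorem iff_SH5 (hCHV : StCHV) {Γ : Type} [Group Γ] {ρ : Γ →* SL} {A B : Set ℂ}
    (h : KD ρ A B) (γ : Γ) (ξ : ℂ) (hξ : ρ γ 1 0 * ξ + ρ γ 1 1 ≠ 0) :
    ξ ∈ A ↔ mb (ρ γ) ξ ∈ A := by
  constructor
  · intro hA
    exact (h.mpA γ ξ hA).2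
  · intro hA
    have h1 := (h.mpA γ⁻¹ _ hA).2
    have h2 := (hCHV.2.1 (ρ γ⁻¹) (ρ γ) ξ hξ).1
    rw [← h2, ← map_mul, inv_mul_cancel, map_one, hCHV.2.2.2.1] at h1
    exact h1

private theorem null_SH5 (g : SL) : volume {ξ : ℂ | g 1 0 * ξ + g 1 1 = 0} = 0 := by
  by_cases hc : g 1 0 = 0
  · have hd : g 1 1 ≠ 0 := by
      intro hd
      have := g.det_coe
      rw [Matrix.det_fin_two, hc, hd] at this
      simp at this
    have : {ξ : ℂ | g 1 0 * ξ + g 1 1 = 0} = ∅ := by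
      ext ξ
      simp [hc, hd]
    rw [this, measure_empty]
  · refine measure_mono_null (t := {-(g 1 1) / g 1 0}) ?_ (measure_singleton _)
    intro ξ hξ
    rw [Set.mem_singleton_iff, eq_div_iff hc]
    have : g 1 0 * ξ + g 1 1 = 0 := hξ
    linear_combination this

private theorem deriv_mb (g : SL) {ξ : ℂ} (h : g 1 0 * ξ + g 1 1 ≠ 0) :
    HasDerivAt (mb g) (1 / (g 1 0 * ξ + g 1 1) ^ 2) ξ := by
  have h1 : HasDerivAt (fun z : ℂ => g 0 0 * z + g 0 1) (g 0 0) ξ := by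
    simpa using ((hasDerivAt_id ξ).const_mul (g 0 0)).add_const (g 0 1)
  have h2 : HasDerivAt (fun z : ℂ => g 1 0 * z + g 1 1) (g 1 0) ξ := by
    simpa using ((hasDerivAt_id ξ).const_mul (g 1 0)).add_const (g 1 1)
  have h3 := h1.div h2 h
  have h4 := g.det_coe
  rw [Matrix.det_fin_two] at h4
  have h5 : (g 0 0 * (g 1 0 * ξ + g 1 1) - (g 0 0 * ξ + g 0 1) * g 1 0) / (g 1 0 * ξ + g 1 1) ^ 2 =
      1 / (g 1 0 * ξ + g 1 1) ^ 2 := by
    congr 1
    linear_combination h4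
  rw [← h5]
  exact h3

private theorem real_mb (s : SL) (hs : IsR s) {w : ℂ} (hw : 0 < w.im) :
    s 1 0 * w + s 1 1 ≠ 0 ∧ (mb s w).im * ‖s 1 0 * w + s 1 1‖ ^ 2 = w.im := by
  obtain ⟨a, ha⟩ : ∃ a : ℝ, s 0 0 = a := ⟨(s 0 0).re, Complex.ext rfl (by simp [hs 0 0])⟩
  obtain ⟨b, hb⟩ : ∃ a : ℝ, s 0 1 = a := ⟨(s 0 1).re, Complex.ext rfl (by simp [hs 0 1])⟩
  obtain ⟨c, hc⟩ : ∃ a : ℝ, s 1 0 = a := ⟨(s 1 0).re, Complex.ext rfl (by simp [hs 1 0])⟩
  obtain ⟨d, hd⟩ : ∃ a : ℝ, s 1 1 = a := ⟨(s 1 1).re, Complex.ext rfl (by simp [hs 1 1])⟩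
  have hdet := s.det_coe
  rw [Matrix.det_fin_two, ha, hb, hc, hd] at hdet
  have hdet' : a * d - b * c = 1 := by exact_mod_cast hdet
  have hne : (c : ℂ) * w + d ≠ 0 := by
    intro h0
    have h1 := congrArg Complex.im h0
    have h2 := congrArg Complex.re h0
    simp at h1 h2
    rcases h1 with h1 | h1
    · rw [h1] at h2
      have h3 : d = 0 := by simpa using h2
      rw [h1, h3] at hdet'
      norm_num at hdet'
    · exact hw.ne' h1
  unfold mb
  rw [ha, hb, hc, hd]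
  refine ⟨hne, ?_⟩
  have hpos : 0 < Complex.normSq ((c : ℂ) * w + d) := Complex.normSq_pos.2 hne
  rw [← Complex.normSq_eq_norm_sq, Complex.div_im, ← sub_div, div_mul_cancel₀ _ hpos.ne']
  simp
  linear_combination w.im * hdet'

theorem hSH5 (hCHV : Pool.Agent.Helper86.QA.StCHV) : Pool.Agent.Helper85.QT.StSH5 := by
  intro Γ _ ρ σ A B F h hF
  have hAm : MeasurableSet A := h.opA.measurableSet
  have him : ∀ ξ ∈ A, 0 < (F ξ).im := by
    intro ξ hξ
    have h1 : F ξ ∈ F '' A := ⟨ξ, hξ, rfl⟩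
    rw [hF.img] at h1
    exact h1
  have hinv : ∀ γ : Γ, ∀ ξ ∈ A, rX F (mb (ρ γ) ξ) = rX F ξ * ‖ρ γ 1 0 * ξ + ρ γ 1 1‖ ^ 4 := by
    intro γ ξ hξ
    obtain ⟨hne, hmem⟩ := h.mpA γ ξ hξ
    obtain ⟨hne', hIm⟩ := real_mb (σ γ) (hF.rea γ) (him ξ hξ)
    have hd1 : HasDerivAt F (deriv F ξ) ξ :=
      ((hF.dif ξ hξ).differentiableAt (h.opA.mem_nhds hξ)).hasDerivAt
    have hd2 : HasDerivAt F (deriv F (mb (ρ γ) ξ)) (mb (ρ γ) ξ) :=
      ((hF.dif _ hmem).differentiableAt (h.opA.mem_nhds hmem)).hasDerivAt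
    have e1 : HasDerivAt (fun z => F (mb (ρ γ) z))
        (deriv F (mb (ρ γ) ξ) * (1 / (ρ γ 1 0 * ξ + ρ γ 1 1) ^ 2)) ξ := hd2.comp ξ (deriv_mb (ρ γ) hne)
    have e2 : HasDerivAt (fun z => mb (σ γ) (F z))
        (1 / (σ γ 1 0 * F ξ + σ γ 1 1) ^ 2 * deriv F ξ) ξ := (deriv_mb (σ γ) hne').comp ξ hd1
    have e3 : (fun z => F (mb (ρ γ) z)) =ᶠ[𝓝 ξ] fun z => mb (σ γ) (F z) := by
      filter_upwards [h.opA.mem_nhds hξ] with z hz
      exact hF.equ γ z hz
    have e4 := e1.unique (e2.congr_of_eventuallyEq e3)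
    have e5 : deriv F (mb (ρ γ) ξ) =
        deriv F ξ * (ρ γ 1 0 * ξ + ρ γ 1 1) ^ 2 / (σ γ 1 0 * F ξ + σ γ 1 1) ^ 2 := by
      field_simp at e4 ⊢
      linear_combination e4
    unfold rX
    rw [e5, hF.equ γ ξ hξ]
    have hpos : 0 < ‖σ γ 1 0 * F ξ + σ γ 1 1‖ := norm_pos_iff.2 hne'
    have e6 : (mb (σ γ) (F ξ)).im = (F ξ).im / ‖σ γ 1 0 * F ξ + σ γ 1 1‖ ^ 2 := by
      rw [eq_div_iff (by positivity)]
      exact hIm
    rw [e6, norm_div, norm_mul, norm_pow, norm_pow]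
    have h3 := (him ξ hξ).ne'
    field_simp
  refine ⟨hinv, ?_, ?_⟩
  · set w : ℂ → ℝ≥0∞ := fun ξ => ENNReal.ofReal (rX F ξ) with hw
    have hcont : ContinuousOn (rX F) A := by
      have h1 : ContinuousOn (deriv F) A := (hF.dif.deriv h.opA).continuousOn
      have h2 : ContinuousOn F A := hF.dif.continuousOn
      unfold rX
      exact (h1.norm.pow 2).div ((Complex.continuous_im.comp_continuousOn h2).pow 2)
        fun ξ hξ => pow_ne_zero _ (him ξ hξ).ne'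
    have hwc : ContinuousOn w A := ENNReal.continuous_ofReal.comp_continuousOn hcont
    classical
    let W : ℂ → ℝ≥0∞ := A.piecewise w 0
    have hWm : Measurable W := hwc.measurable_piecewise continuousOn_const hAm
    have hWw : ∀ ξ ∈ A, W ξ = w ξ := fun ξ hξ => Set.piecewise_eq_of_mem A w 0 hξ
    have hmu : ((volume : Measure ℂ).restrict A).withDensity w =
        ((volume : Measure ℂ).restrict A).withDensity W := by
      apply withDensity_congr_ae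
      rw [Filter.EventuallyEq, ae_restrict_iff' hAm]
      exact ae_of_all _ fun ξ hξ => (hWw ξ hξ).symm
    rw [hmu]
    refine ⟨hAm, ?_, ?_, ?_, ?_, ?_, ?_⟩
    · apply withDensity_absolutelyContinuous
      rw [Measure.restrict_apply hAm.compl, Set.compl_inter_self, measure_empty]
    · intro γ x hx
      exact (h.mpA γ x hx).2
    · intro x _
      change mb (ρ 1) x = x
      rw [map_one, hCHV.2.2.2.1]
    · intro γ δ x hx
      change mb (ρ (γ * δ)) x = mb (ρ γ) (mb (ρ δ) x)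
      rw [map_mul, (hCHV.2.1 (ρ γ) (ρ δ) x (h.mpA δ x hx).1).1]
    · intro γ
      exact hCHV.2.2.2.2 (ρ γ)
    · intro γ f hf
      change ∫⁻ x, (f ∘ mb (ρ γ)) x ∂(((volume : Measure ℂ).restrict A).withDensity W) = _
      rw [lintegral_withDensity_eq_lintegral_mul _ hWm hf,
        lintegral_withDensity_eq_lintegral_mul _ hWm (hf.comp (hCHV.2.2.2.2 (ρ γ)))]
      have hFm : Measurable (A.indicator (W * f)) := (hWm.mul hf).indicator hAm
      rw [← lintegral_indicator hAm, ← lintegral_indicator hAm,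
        ← hCHV.1 (ρ γ) (A.indicator (W * f)) hFm]
      apply lintegral_congr_ae
      have hae : ∀ᵐ ξ : ℂ, ρ γ 1 0 * ξ + ρ γ 1 1 ≠ 0 := by
        rw [ae_iff]
        simp only [not_not]
        exact null_SH5 (ρ γ)
      filter_upwards [hae] with ξ hξ
      by_cases hA : ξ ∈ A
      · have hA' : mb (ρ γ) ξ ∈ A := (h.mpA γ ξ hA).2
        rw [Set.indicator_of_mem hA, Set.indicator_of_mem hA', Pi.mul_apply, Pi.mul_apply,
          hWw _ hA, hWw _ hA']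
        have hpos : 0 < ‖ρ γ 1 0 * ξ + ρ γ 1 1‖ ^ 4 := by positivity
        have e7 : w (mb (ρ γ) ξ) = w ξ * ENNReal.ofReal (‖ρ γ 1 0 * ξ + ρ γ 1 1‖ ^ 4) := by
          simp only [hw]
          rw [hinv γ ξ hA, ENNReal.ofReal_mul]
          unfold rX
          positivity
        have : ENNReal.ofReal (‖ρ γ 1 0 * ξ + ρ γ 1 1‖ ^ 4) *
            ENNReal.ofReal (1 / ‖ρ γ 1 0 * ξ + ρ γ 1 1‖ ^ 4) = 1 := by
          rw [← ENNReal.ofReal_mul hpos.le, mul_one_div_cancel hpos.ne', ENNReal.ofReal_one]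
        rw [e7]
        calc w ξ * (f ∘ mb (ρ γ)) ξ
            = w ξ * f (mb (ρ γ) ξ) * 1 := by rw [mul_one]; rfl
          _ = w ξ * f (mb (ρ γ) ξ) * (ENNReal.ofReal (‖ρ γ 1 0 * ξ + ρ γ 1 1‖ ^ 4) *
            ENNReal.ofReal (1 / ‖ρ γ 1 0 * ξ + ρ γ 1 1‖ ^ 4)) := by rw [this]
          _ = _ := by ring
      · have hA' : mb (ρ γ) ξ ∉ A := fun h' => hA ((iff_SH5 hCHV h γ ξ hξ).2 h')
        rw [Set.indicator_of_notMem hA, Set.indicator_of_notMem hA', zero_mul]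
  · exact SigmaFinite.withDensity_of_ne_top' (fun x => ENNReal.ofReal_ne_top)

end Pool.Agent.Helper5.QT
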