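import Pool.Agent.Helper85.QT.St2

set_option autoImplicit false

open MeasureTheory Matrix Set Topology
open scoped ENNReal ComplexConjugate

namespace Pool.Agent.Helper5.QT

open Pool.Agent.Helper85.QT Pool.Agent.Helper86.QA

private theorem nsq_TRI (w : ℂ) : ‖w‖ ^ 2 = w.re ^ 2 + w.im ^ 2 := by
  rw [← Complex.normSq_eq_norm_sq, Complex.normSq_apply]
  ring

private theorem aux_TRI {p1 p2 q1 q2 s t r : ℝ} (hs : 0 < s) (ht : 0 < t) (hr : 0 < r) :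
    ((p1 - q1) ^ 2 + (p2 - q2) ^ 2 + s ^ 2 + t ^ 2) / (2 * s * t) ≤
      (p1 ^ 2 + p2 ^ 2 + s ^ 2 + r ^ 2) / (2 * s * r) * ((q1 ^ 2 + q2 ^ 2 + r ^ 2 + t ^ 2) / (2 * r * t)) +
      Real.sqrt (((p1 ^ 2 + p2 ^ 2 + s ^ 2 + r ^ 2) / (2 * s * r)) ^ 2 - 1) *
        Real.sqrt (((q1 ^ 2 + q2 ^ 2 + r ^ 2 + t ^ 2) / (2 * r * t)) ^ 2 - 1) := by
  set a : ℝ := p1 ^ 2 + p2 ^ 2 + s ^ 2 - r ^ 2 with ha
  set b : ℝ := q1 ^ 2 + q2 ^ 2 + t ^ 2 - r ^ 2 with hb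
  have e1 : ((p1 ^ 2 + p2 ^ 2 + s ^ 2 + r ^ 2) / (2 * s * r)) ^ 2 - 1 =
      (a ^ 2 + 4 * r ^ 2 * (p1 ^ 2 + p2 ^ 2)) / (2 * s * r) ^ 2 := by
    rw [ha]
    field_simp
    ring
  have e2 : ((q1 ^ 2 + q2 ^ 2 + r ^ 2 + t ^ 2) / (2 * r * t)) ^ 2 - 1 =
      (b ^ 2 + 4 * r ^ 2 * (q1 ^ 2 + q2 ^ 2)) / (2 * r * t) ^ 2 := by
    rw [hb]
    field_simp
    ring
  have e3 : ((p1 - q1) ^ 2 + (p2 - q2) ^ 2 + s ^ 2 + t ^ 2) / (2 * s * t) =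
      (p1 ^ 2 + p2 ^ 2 + s ^ 2 + r ^ 2) / (2 * s * r) * ((q1 ^ 2 + q2 ^ 2 + r ^ 2 + t ^ 2) / (2 * r * t)) +
        -(a * b + 4 * r ^ 2 * (p1 * q1 + p2 * q2)) / ((2 * s * r) * (2 * r * t)) := by
    rw [ha, hb]
    field_simp
    ring
  rw [e1, e2, e3, ← Real.sqrt_mul (by positivity), div_mul_div_comm, div_mul_div_comm, Real.sqrt_div' _ (by positivity),
    ← mul_pow, Real.sqrt_sq (by positivity)]
  have h1 : -(a * b + 4 * r ^ 2 * (p1 * q1 + p2 * q2)) ≤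
      Real.sqrt ((a ^ 2 + 4 * r ^ 2 * (p1 ^ 2 + p2 ^ 2)) * (b ^ 2 + 4 * r ^ 2 * (q1 ^ 2 + q2 ^ 2))) := by
    apply Real.le_sqrt_of_sq_le
    have h2 : (a ^ 2 + 4 * r ^ 2 * (p1 ^ 2 + p2 ^ 2)) * (b ^ 2 + 4 * r ^ 2 * (q1 ^ 2 + q2 ^ 2)) -
        (-(a * b + 4 * r ^ 2 * (p1 * q1 + p2 * q2))) ^ 2 =
        4 * r ^ 2 * ((a * q1 - b * p1) ^ 2 + (a * q2 - b * p2) ^ 2) +
          16 * r ^ 4 * (p1 * q2 - p2 * q1) ^ 2 := by ring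
    have h3 : 0 ≤ 4 * r ^ 2 * ((a * q1 - b * p1) ^ 2 + (a * q2 - b * p2) ^ 2) +
          16 * r ^ 4 * (p1 * q2 - p2 * q1) ^ 2 := by positivity
    linarith
  have h2 := div_le_div_of_nonneg_right h1 (show (0 : ℝ) ≤ 2 * s * r * (2 * r * t) by positivity)
  linarith

theorem hTRI (_hACT : Pool.Agent.Helper86.QA.StACT) (_hCHI : Pool.Agent.Helper86.QA.StCHI) :
    Pool.Agent.Helper85.QT.StTRI := by
  intro x hx y hy z hz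
  have h := aux_TRI (p1 := x.1.re - y.1.re) (p2 := x.1.im - y.1.im) (q1 := z.1.re - y.1.re)
    (q2 := z.1.im - y.1.im) (s := x.2) (t := z.2) (r := y.2) hx hz hy
  have e1 : ch x z = ((x.1.re - y.1.re - (z.1.re - y.1.re)) ^ 2 + (x.1.im - y.1.im - (z.1.im - y.1.im)) ^ 2 +
      x.2 ^ 2 + z.2 ^ 2) / (2 * x.2 * z.2) := by
    unfold ch
    rw [nsq_TRI, Complex.sub_re, Complex.sub_im]
    congr 1
    ring
  have e2 : ch x y = ((x.1.re - y.1.re) ^ 2 + (x.1.im - y.1.im) ^ 2 + x.2 ^ 2 + y.2 ^ 2) /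
      (2 * x.2 * y.2) := by
    unfold ch
    rw [nsq_TRI, Complex.sub_re, Complex.sub_im]
  have e3 : ch y z = ((z.1.re - y.1.re) ^ 2 + (z.1.im - y.1.im) ^ 2 + y.2 ^ 2 + z.2 ^ 2) /
      (2 * y.2 * z.2) := by
    unfold ch
    rw [nsq_TRI, Complex.sub_re, Complex.sub_im]
    congr 1
    ring
  rw [e1, e2, e3]
  exact h

end Pool.Agent.Helper5.QT
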